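import Pool.Agent.Helper57.TD.TheoremD
import Pool.Agent.Helper1.GL.Fields
import Pool.Agent.Helper51.GX.Defs
import Pool.Agent.Helper82.TK.Enter

/-!
# The global induction: frame

`One` is the constant label one. `GMin G U`: a minimal counterexample in the class `Ex3`.
-/

set_option autoImplicit false

namespace Pool.Agent.Helper57.TOP

open SimpleGraph Pool.Agent.Helper57.TOK Pool.Agent.Helper57.TD Pool.Agent.Helper82.TK
open Pool.Agent.Helper51.GX

variable {V : Type*}

/-- all labels are one -/
abbrev One (V : Type*) : Sym2 V → ZMod 2 := fun _ => 1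

/-- Order of the global induction. -/
def GSmaller (G' : SimpleGraph V) (U' : Set V) (G : SimpleGraph V) (U : Set V) : Prop :=
  U'.ncard < U.ncard ∨ (U'.ncard = U.ncard ∧ G'.edgeSet.ncard < G.edgeSet.ncard)

/-- A minimal counterexample in the global class. -/
structure GMin (G : SimpleGraph V) (U : Set V) : Prop where
  ex : Ex3 G (One V) U
  bad : ¬ HasTOK4s G (One V)
  IH : ∀ (G' : SimpleGraph V) (U' : Set V), Ex3 G' (One V) U' → GSmaller G' U' G U →
    HasTOK4s G' (One V)

/-- The induction. -/
theorem tok_of_no_gmin [Finite V]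
    (hno : ∀ (G : SimpleGraph V) (U : Set V), ¬ GMin G U)
    (G : SimpleGraph V) (U : Set V) (h : Ex3 G (One V) U) : HasTOK4s G (One V) := by
  have key : ∀ n m : ℕ, ∀ (G : SimpleGraph V) (U : Set V), U.ncard = n → G.edgeSet.ncard = m →
      Ex3 G (One V) U → HasTOK4s G (One V) := by
    intro n
    induction n using Nat.strong_induction_on with
    | _ n ihn =>
      intro m
      induction m using Nat.strong_induction_on with
      | _ m ihm =>
        intro G U hn hm hex
        by_contra hbad
        refine hno G U ⟨hex, hbad, ?_⟩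
        intro G' U' hex' hsm
        rcases hsm with h1 | ⟨h1, h2⟩
        · exact ihn U'.ncard (by omega) G'.edgeSet.ncard G' U' rfl rfl hex'
        · exact ihm G'.edgeSet.ncard (by omega) G' U' (by omega) rfl hex'
  exact key U.ncard G.edgeSet.ncard G U rfl rfl h

/-- No nontrivial 3-separation. -/
def Cut (G : SimpleGraph V) (U : Set V) : Prop :=
  ∀ Y ⊆ U, 2 ≤ Y.ncard → (Nb G Y).ncard ≤ 3 → (U \ (Y ∪ Nb G Y)).ncard ≤ 1

end Pool.Agent.Helper57.TOP
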