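import Pool.Agent.Helper82.TK.HCases
import Pool.Agent.Helper94.F2.Main

/-!
# A minimal counterexample has no vertex of degree two: assembly
-/

set_option autoImplicit false

namespace Pool.Agent.Helper57.TOP

open SimpleGraph Pool.Agent.Helper57.TOK Pool.Agent.Helper57.TD Pool.Agent.Helper82.TK

variable {V : Type*} {G : SimpleGraph V} {U : Set V}

/-- Minimum degree three, from the impossibility of mixed cuts of a vertex of degree two which has
no `F2c` set. -/
theorem GMin.deg3_of [Finite V] (hM : GMin G U)
    (hmix : ∀ (h p q a b : V) (A B : Set V), Mix G U h p q a b A B →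
      (∀ Y κ, ¬ F2c G U h p q Y κ) → False) :
    ∀ y ∈ U, 3 ≤ (G.neighborSet y).ncard := by
  intro y hy
  by_contra hlt
  have h2 := hM.ex.deg2 y hy
  obtain ⟨p, q, hh⟩ := exists_hand (by omega : (G.neighborSet y).ncard = 2)
  refine Pool.Agent.Helper94.F2.f2c_false hM ?_ hy hh
  intro h p q hU hh
  rcases gmin_hand_cases hM hU hh with ⟨a, b, A, B, hm⟩ | h3
  · by_contra hcon
    push Not at hcon
    exact hmix h p q a b A B hm hcon
  · exact h3

end Pool.Agent.Helper57.TOP
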