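import Pool.Agent.Helper1.PHI.Final
import Pool.Agent.Helper57.TOP.Defs
import Pool.Agent.Helper57.TOK.Translate

/-!
# The frozen statement from the absence of vertices of degree two in a minimal counterexample
-/

set_option autoImplicit false

namespace Pool.Agent.Helper57.TOP

open SimpleGraph Pool.Agent.Helper57.TOK Pool.Agent.Helper57.TD Pool.Agent.Helper82.TK

/-- Every finite 4-connected graph of bipartite index at least two contains a totally odd
subdivision of `K_4`, provided a minimal counterexample in the class `Ex3` has minimum degree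
three. -/
theorem main_of_deg3
    (hH : ∀ (V : Type) [Finite V] (G : SimpleGraph V) (U : Set V), GMin G U →
      ∀ y ∈ U, 3 ≤ (G.neighborSet y).ncard) :
    ∀ (V : Type) [Fintype V] (G : SimpleGraph V),
      (4 < Fintype.card V ∧
        ∀ S : Finset V, S.card < 4 → (G.induce ((↑S : Set V)ᶜ)).Connected) →
      (∀ S : Finset V, S.card ≤ 1 → ¬ (G.induce ((↑S : Set V)ᶜ)).Colorable 2) →
      ∃ v : Fin 4 → V, Function.Injective v ∧
        ∃ P : ∀ i j : Fin 4, G.Walk (v i) (v j),
          (∀ i j : Fin 4, i < j → (P i j).IsPath ∧ Odd (P i j).length) ∧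
          (∀ i j k l : Fin 4, i < j → k < l → (i, j) ≠ (k, l) →
            ∀ x : V, x ∈ (P i j).support → x ∈ (P k l).support →
              ((x = v i ∨ x = v j) ∧ (x = v k ∨ x = v l))) := by
  classical
  intro V _ G h1 h2
  have hV : 4 < Nat.card V := by
    rw [Nat.card_eq_fintype_card]; exact h1.1
  have : Nonempty V := by
    rw [← Finite.card_pos_iff]
    omega
  have hex := (conn4_enter (conn4_of_induce h1.2) (index2_of_induce h2) hV).1
  have h4 : HasTOK4s G (One V) :=
    tok_of_no_gmin (fun G U hM => hM.false_of_deg3 (hH V G U hM)) G Set.univ hex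
  have h5 : HasTOK4 G := (hasTOK4_iff G).2 h4
  exact h5

end Pool.Agent.Helper57.TOP
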