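import Pool.Agent.Helper57.TD.TheoremD
import Pool.Agent.Helper82.TK.Enter
import Pool.Agent.Helper57.TOK.Translate

/-!
# Totally odd K4-subdivisions in 4-connected graphs of bipartite index exactly two
-/

set_option autoImplicit false

namespace Pool.Agent.Helper57.TOP.IndexTwo

open SimpleGraph Pool.Agent.Helper57.TOK Pool.Agent.Helper57.TD Pool.Agent.Helper82.TK

/-- Every finite 4-connected graph of bipartite index exactly two contains a totally odd
subdivision of `K_4`. -/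
theorem result :
    ∀ (V : Type) [Fintype V] (G : SimpleGraph V),
      (4 < Fintype.card V ∧
        ∀ S : Finset V, S.card < 4 → (G.induce ((↑S : Set V)ᶜ)).Connected) →
      (∀ S : Finset V, S.card ≤ 1 → ¬ (G.induce ((↑S : Set V)ᶜ)).Colorable 2) →
      (∃ S : Finset V, S.card = 2 ∧ (G.induce ((↑S : Set V)ᶜ)).Colorable 2) →
      ∃ v : Fin 4 → V, Function.Injective v ∧
        ∃ P : ∀ i j : Fin 4, G.Walk (v i) (v j),
          (∀ i j : Fin 4, i < j → (P i j).IsPath ∧ Odd (P i j).length) ∧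
          (∀ i j k l : Fin 4, i < j → k < l → (i, j) ≠ (k, l) →
            ∀ x : V, x ∈ (P i j).support → x ∈ (P k l).support →
              ((x = v i ∨ x = v j) ∧ (x = v k ∨ x = v l))) := by
  classical
  intro V _ G h1 h2 h3
  obtain ⟨S, hS, hcol⟩ := h3
  obtain ⟨z1, z2, -, hz⟩ := Finset.card_eq_two.1 hS
  have hbip : ∃ κ : V → Bool, ∀ u v, u ≠ z1 → u ≠ z2 → v ≠ z1 → v ≠ z2 → G.Adj u v →
      κ u ≠ κ v := by
    obtain ⟨c⟩ := hcol
    refine ⟨fun v => if h : v ∈ ((↑S : Set V)ᶜ) then decide (c ⟨v, h⟩ = 0) else true, ?_⟩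
    intro u v hu1 hu2 hv1 hv2 huv
    have hu : u ∈ ((↑S : Set V)ᶜ) := by
      rw [hz]; simp [hu1, hu2]
    have hv : v ∈ ((↑S : Set V)ᶜ) := by
      rw [hz]; simp [hv1, hv2]
    have hne : c ⟨u, hu⟩ ≠ c ⟨v, hv⟩ := c.valid (by simpa using huv)
    show (if h : u ∈ ((↑S : Set V)ᶜ) then decide (c ⟨u, h⟩ = 0) else true) ≠
      (if h : v ∈ ((↑S : Set V)ᶜ) then decide (c ⟨v, h⟩ = 0) else true)
    rw [dif_pos hu, dif_pos hv]
    revert hne
    generalize c ⟨u, hu⟩ = s
    generalize c ⟨v, hv⟩ = t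
    revert s t
    decide
  have hV : 4 < Nat.card V := by
    rw [Nat.card_eq_fintype_card]; exact h1.1
  exact hasTOK4_conn4_index_two (conn4_of_induce h1.2) (index2_of_induce h2) hV hbip
    (fun Z κ S T h => theoremD Z κ S T h)

end Pool.Agent.Helper57.TOP.IndexTwo
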