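import Pool.Agent.Helper95.SEP.Final
import Pool.Agent.Helper75.SEP.Numbers
import Pool.Agent.Helper82.TK.P1
import Pool.Agent.Helper1.TOP.OfCut
import Pool.Agent.Helper57.TOK.Translate

/-!
# The global induction: assembly

`GMin.false_of`: a minimal counterexample without vertices of degree two in which no side of a
3-separation can be kept does not exist. `tok_of`: from this every graph of the class with a
nonempty vertex set has a TOK4.
-/

set_option autoImplicit false

namespace Pool.Agent.Helper57.TOP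

open SimpleGraph Pool.Agent.Helper57.TOK Pool.Agent.Helper57.TD Pool.Agent.Helper82.TK
open Pool.Agent.Helper51.GX Pool.Agent.Helper1.GL
open Pool.Agent.Helper75.SEP (RApex Sep3 Keep CB)

variable {V : Type*}

/-- Balanced sets with at least two elements have at least four neighbours. -/
theorem GMin.P1_deg3 [Finite V] {G : SimpleGraph V} {U : Set V} (hM : GMin G U)
    (hdeg : ∀ y ∈ U, 3 ≤ (G.neighborSet y).ncard) :
    ∀ Y ⊆ U, 2 ≤ Y.ncard → ∀ κ, Bal G κ Y → 4 ≤ (Nb G Y).ncard := by
  intro Y hY h2 κ hb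
  by_contra hlt
  push Not at hlt
  obtain ⟨r1, h1, r2, h3, hne⟩ := (Set.one_lt_ncard (Set.toFinite _)).1 h2
  exact gmin_no_two_real hM hY (κ := κ) hb (by omega) h1 h3 hne (hdeg r1 (hY h1))
    (hdeg r2 (hY h3))

/-- The base facts of the theory of three-separations. -/
theorem GMin.cb [Finite V] {G : SimpleGraph V} {U : Set V} (hM : GMin G U)
    (hdeg : ∀ y ∈ U, 3 ≤ (G.neighborSet y).ncard) : CB G U :=
  CB.of_gmin hM hdeg (hM.P1_deg3 hdeg)

/-- If nothing can be kept then there is no nontrivial 3-separation. -/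
theorem GMin.cut_of [Finite V] {G : SimpleGraph V} {U : Set V} (hM : GMin G U)
    (hdeg : ∀ y ∈ U, 3 ≤ (G.neighborSet y).ncard)
    (hK : ∀ (A B : Set V) (i j k : V), ¬ Keep G U A B i j k) : Cut G U := by
  classical
  have hCB := hM.cb hdeg
  have key : ∀ Y ⊆ U, 2 ≤ Y.ncard → (Nb G Y).ncard = 3 → 2 ≤ (U \ (Y ∪ Nb G Y)).ncard →
      fden G Y = 2 ∧ ∀ l ∈ Nb G Y, ¬ RApex G Y l := by
    intro Y hY h2 h3 hr
    obtain ⟨i, j, k, hij, hik, hjk, hN⟩ := Set.ncard_eq_three.1 h3
    have hs := Sep3.of_set hM.ex.edge_mem hM.ex.conn hY h2 hN hij hik hjk hr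
    have hw := hs.world hCB hK
    refine ⟨hw.1, ?_⟩
    intro l hl
    rw [hN] at hl
    rcases hl with hl | hl | hl
    · rw [hl]; exact hw.2.2.2.1.1
    · rw [hl]; exact hw.2.2.2.1.2.1
    · rw [Set.mem_singleton_iff] at hl
      rw [hl]; exact hw.2.2.2.1.2.2
  exact Pool.Agent.Helper95.SEP.World.cut
    { gmin := hM
      deg3 := hdeg
      num := fun Y hY h2 h3 hr => (key Y hY h2 h3 hr).1.ge
      noapex := fun Y hY h2 h3 hr l hl κ hκ => (key Y hY h2 h3 hr).2 l hl ⟨κ, hκ⟩ }

/-- Assembly. -/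
theorem GMin.false_of [Finite V] [Nonempty V] {G : SimpleGraph V} {U : Set V} (hM : GMin G U)
    (hdeg : ∀ y ∈ U, 3 ≤ (G.neighborSet y).ncard)
    (hK : ∀ (A B : Set V) (i j k : V), ¬ Keep G U A B i j k) : False :=
  hM.false_of_cut (hM.cut_of hdeg hK) hdeg

/-- The theorem on the class, from the absence of vertices of degree two and of sides which can be
kept in a minimal counterexample. -/
theorem tok_of [Finite V] [Nonempty V]
    (hH : ∀ (G : SimpleGraph V) (U : Set V), GMin G U → ∀ y ∈ U, 3 ≤ (G.neighborSet y).ncard)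
    (hP : ∀ (G : SimpleGraph V) (U : Set V), GMin G U →
      (∀ y ∈ U, 3 ≤ (G.neighborSet y).ncard) →
      ∀ (A B : Set V) (i j k : V), ¬ Keep G U A B i j k)
    (G : SimpleGraph V) (U : Set V) (h : Ex3 G (One V) U) : HasTOK4s G (One V) :=
  tok_of_no_gmin (fun G U hM => hM.false_of (hH G U hM) (hP G U hM (hH G U hM))) G U h

/-- Four-connected graphs, from the theorem on the class. -/
theorem hasTOK4_of_class [Finite V] {G : SimpleGraph V} (h : Conn4 G) (hi : Index2 G)
    (hV : 4 < Nat.card V)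
    (hT : ∀ (G : SimpleGraph V) (U : Set V), Ex3 G (One V) U → HasTOK4s G (One V)) :
    HasTOK4 G := by
  rw [hasTOK4_iff]
  exact hT G Set.univ (conn4_enter h hi hV).1

end Pool.Agent.Helper57.TOP
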